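import Pool.Agent.R822.SuitTop

/-!
MP_41e59e: there is a totally disconnected, linearly orderable (even linearly ordered abelian)
topological group of uncountable density and uncountable pseudocharacter without a suitable set,
hence also without a closed suitable set.
-/

namespace Pool.Agent.Results.MP_41e59e_gt.NoSuitable

open Set Topology

/-- `S` is a suitable set for the topological group `G`: the subspace `S` is discrete, `S ∪ {e}`
is closed in `G`, and the subgroup generated by `S` is dense in `G`. -/
def IsSuitable {G : Type} [Group G] [TopologicalSpace G] (S : Set G) : Prop :=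
  DiscreteTopology S ∧ IsClosed (S ∪ {1}) ∧ Dense (Subgroup.closure S : Set G)

/-- There is a commutative topological group `G` whose topology is the order topology of a
linear order compatible with the group operation, which is Tychonoff and totally disconnected,
is not separable (`d(G) > ω`), has no point which is a countable intersection of open sets
(`ψ(G) > ω`), and has no suitable set (so no closed suitable set either). -/
theorem result :
    ∃ (G : Type) (_ : CommGroup G) (_ : LinearOrder G) (_ : TopologicalSpace G),
      IsOrderedMonoid G ∧ OrderTopology G ∧ IsTopologicalGroup G ∧ T35Space G ∧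
      TotallyDisconnectedSpace G ∧
      ¬ TopologicalSpace.SeparableSpace G ∧
      (∀ x : G, ¬ IsGδ ({x} : Set G)) ∧
      ¬ ∃ S : Set G, IsSuitable S := by
  have hI := Pool.Agent.R822.Suit.good_aleph_one
  have := hI.noMax
  have := hI.nonempty
  refine ⟨Multiplicative (Pool.Agent.R822.Suit.HH (Cardinal.aleph 1).ord.ToType), inferInstance,
    inferInstance, inferInstance, inferInstance, ?_, inferInstance, ?_, ?_, ?_, ?_, ?_⟩
  · exact inferInstanceAs (OrderTopology (Pool.Agent.R822.Suit.HH (Cardinal.aleph 1).ord.ToType))
  · exact inferInstanceAs (T35Space (Pool.Agent.R822.Suit.HH (Cardinal.aleph 1).ord.ToType))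
  · exact inferInstanceAs
      (TotallyDisconnectedSpace (Pool.Agent.R822.Suit.HH (Cardinal.aleph 1).ord.ToType))
  · exact Pool.Agent.R822.Suit.not_separable hI
  · exact Pool.Agent.R822.Suit.not_isGδ hI
  · rintro ⟨S, hS⟩
    exact Pool.Agent.R822.Suit.no_suitable_mul hI S hS

end Pool.Agent.Results.MP_41e59e_gt.NoSuitable
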